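import Pool.Agent.Helper49.PA.GoalsA

/-! The colour of a substituted word with a parameter depends only on the letters before the first
parameter. -/

namespace PA49.PkPRE

open PA49 Combinatorics

/-- Substitution into the first half of the subspace. -/
def comb {A ι₁ ι₂ : Type} (l : Subspace ι₁ (Option A) ι₂) (a : Option A) (τ : ι₁ → Option A) :
    Option ι₂ → Option A
  | none => a
  | some j =>
    match l.idxFun j with
    | .inl (some b) => some b
    | .inl none => a
    | .inr e => τ e

/-- The words of the composite subspace. -/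
def sidx {A ι₁ ι₂ : Type} {D : ℕ} (l : Subspace ι₁ (Option A) ι₂) (S : Subspace (Fin D) A ι₁) :
    Option ι₂ → A ⊕ Fin (D + 1)
  | none => .inr 0
  | some j =>
    match l.idxFun j with
    | .inl (some b) => .inl b
    | .inl none => .inr 0
    | .inr e =>
      match S.idxFun e with
      | .inl b => .inl b
      | .inr d => .inr d.succ

/-- The composite subspace. -/
def comp {A ι₁ ι₂ : Type} {D : ℕ} (l : Subspace ι₁ (Option A) ι₂) (S : Subspace (Fin D) A ι₁) :
    Subspace (Fin (D + 1)) A (Option ι₂) where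
  idxFun := sidx l S
  proper e := by
    refine Fin.cases ?_ (fun d => ?_) e
    · exact ⟨none, rfl⟩
    · obtain ⟨e', he'⟩ := S.proper d
      obtain ⟨j, hj⟩ := l.proper e'
      refine ⟨some j, ?_⟩
      simp only [sidx, hj, he']

theorem subO_comp {A ι₁ ι₂ : Type} {D : ℕ} (l : Subspace ι₁ (Option A) ι₂)
    (S : Subspace (Fin D) A ι₁) (w : Fin (D + 1) → Option A) :
    subO (comp l S) w = comb l (w 0) (subO S fun d => w d.succ) := by
  funext o
  rcases o with _ | j
  · rfl
  · simp only [subO, comp, sidx, comb]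
    rcases hl : l.idxFun j with (_ | b) | e
    · rfl
    · rfl
    · simp only
      rcases hS : S.idxFun e with b | d
      · rfl
      · rfl

theorem comb_none {A ι₁ ι₂ : Type} (l : Subspace ι₁ (Option A) ι₂) (τ : ι₁ → Option A) :
    comb l none τ = fun o => o.elim none (l τ) := by
  funext o
  rcases o with _ | j
  · rfl
  · simp only [comb, Option.elim, Subspace.coe_apply]
    rcases hl : l.idxFun j with (_ | b) | e <;> rfl

theorem pre_aux (A : Type) [Finite A] (D : ℕ) : ∀ (κ : Type) [Finite κ],
    ∃ (ι : Type) (_ : Finite ι), ∀ C : (ι → Option A) → κ, ∃ S : Subspace (Fin D) A ι,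
      ∀ (i : Fin D) (w w' : Fin D → Option A), FirstAt w i → FirstAt w' i →
        (∀ j, j < i → w j = w' j) → C (subO S w) = C (subO S w') := by
  induction D with
  | zero =>
    intro κ _
    exact ⟨Empty, inferInstance, fun C => ⟨⟨Empty.elim, fun e => e.elim0⟩, fun i => i.elim0⟩⟩
  | succ D ih =>
    intro κ _
    obtain ⟨ι₁, hι₁, h1⟩ := ih (A → κ)
    obtain ⟨ι₂, hι₂, h2⟩ := Subspace.exists_mono_in_high_dimension (Option A) κ ι₁
    refine ⟨Option ι₂, inferInstance, fun C => ?_⟩
    obtain ⟨l, k0, hl⟩ := h2 fun τ => C fun o => o.elim none τ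
    obtain ⟨S, hS⟩ := h1 fun τ a => C (comb l (some a) τ)
    refine ⟨comp l S, fun i w w' hw hw' hww' => ?_⟩
    rw [subO_comp, subO_comp]
    rcases Fin.eq_zero_or_eq_succ i with rfl | ⟨i', rfl⟩
    · rw [hw.1, hw'.1, comb_none, comb_none]
      exact (hl _).trans (hl _).symm
    · have h0 : w 0 ≠ none := hw.2 0 (Fin.succ_pos i')
      obtain ⟨a, ha⟩ := Option.ne_none_iff_exists'.1 h0
      have ha' : w' 0 = some a := by rw [← hww' 0 (Fin.succ_pos i'), ha]
      rw [ha, ha']
      have := hS i' (fun d => w d.succ) (fun d => w' d.succ)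
        ⟨hw.1, fun j hj => hw.2 j.succ (Fin.succ_lt_succ_iff.2 hj)⟩
        ⟨hw'.1, fun j hj => hw'.2 j.succ (Fin.succ_lt_succ_iff.2 hj)⟩
        fun j hj => hww' j.succ (Fin.succ_lt_succ_iff.2 hj)
      exact congrFun this a

theorem pre : G_PRE := fun A κ _ _ D => pre_aux A D κ

end PA49.PkPRE
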